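import Pool.Agent.MP_db5b97_nt.H31.SpecG

/-! A bound for the degree of transitivity of a group that is not a giant. -/

namespace Pool.Agent.MP_db5b97_nt.H6

open MulAction Finset H31

theorem many_primes (r : ℕ) (hr : 2 ≤ r) :
    r ≤ ((range (2 * r ^ 2 + 1)).filter Nat.Prime).card := by
  by_contra hc
  push Not at hc
  set n := r ^ 2 with hn
  have hn4 : 4 ≤ n := by nlinarith
  have h1 := Nat.four_pow_lt_mul_centralBinom n hn4
  have h2 : n.centralBinom ≤ (2 * n) ^ ((range (2 * n + 1)).filter Nat.Prime).card := by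
    rw [← Nat.prod_pow_factorization_centralBinom n,
      ← prod_filter_of_ne (p := Nat.Prime)]
    · refine prod_le_pow_card _ _ _ fun p _ => ?_
      exact Nat.pow_factorization_choose_le (by omega)
    · intro p _ hp
      by_contra h
      exact hp (by rw [Nat.factorization_eq_zero_of_not_prime _ h, pow_zero])
  have h3 : n * n.centralBinom ≤ (2 * n) ^ r := by
    calc n * n.centralBinom
        ≤ (2 * n) * (2 * n) ^ ((range (2 * n + 1)).filter Nat.Prime).card :=
          Nat.mul_le_mul (by omega) h2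
      _ = (2 * n) ^ (((range (2 * n + 1)).filter Nat.Prime).card + 1) := by ring
      _ ≤ (2 * n) ^ r := Nat.pow_le_pow_right (by omega) hc
  have h4 : 2 * n ≤ 4 ^ r := by
    have h5 : ∀ k : ℕ, 2 * k ^ 2 ≤ 4 ^ k := by
      intro k
      induction k with
      | zero => simp
      | succ k ih =>
        have : k < 4 ^ k := Nat.lt_pow_self (by norm_num)
        rcases Nat.eq_zero_or_pos k with rfl | hk
        · norm_num
        · rw [pow_succ 4]; nlinarith
    exact h5 r
  have h6 : (2 * n) ^ r ≤ 4 ^ n := by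
    calc (2 * n) ^ r ≤ (4 ^ r) ^ r := Nat.pow_le_pow_left h4 r
      _ = 4 ^ n := by rw [← pow_mul, hn, sq]
  omega

theorem card_dvd_le (P : Finset ℕ) (hP : ∀ p ∈ P, p.Prime) (l m : ℕ) (hl : 0 < l) (hm : l ≤ m) :
    (P.filter fun p => p ∣ l).card ≤ Nat.log 2 m := by
  have h1 : ∏ p ∈ P.filter (fun p => p ∣ l), p ∣ l :=
    Finset.prod_primes_dvd l (fun p hp => (hP p (mem_filter.1 hp).1).prime)
      fun p hp => (mem_filter.1 hp).2
  have h2 : 2 ^ (P.filter fun p => p ∣ l).card ≤ ∏ p ∈ P.filter (fun p => p ∣ l), p :=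
    pow_card_le_prod _ _ _ fun p hp => (hP p (mem_filter.1 hp).1).two_le
  exact Nat.le_log_of_pow_le (by norm_num) (h2.trans ((Nat.le_of_dvd hl h1).trans hm))

theorem rowG5 (hB : RowB2) : RowG5 := by
  refine ⟨1024, fun G X _ _ _ _ _ t ht htr hG => ?_⟩
  set L := Nat.log 2 (Fintype.card X) with hL
  set r := 8 * L + 2 with hr
  obtain ⟨P, hPs, hPc⟩ := exists_subset_card_eq (many_primes r (by omega))
  have hPp : ∀ p ∈ P, p.Prime := fun p hp => (mem_filter.1 (hPs hp)).2
  have hPl : ∀ p ∈ P, p ≤ 2 * r ^ 2 := fun p hp =>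
    Nat.lt_succ_iff.1 (mem_range.1 (mem_filter.1 (hPs hp)).1)
  by_contra hc
  push Not at hc
  have hs : ∑ p ∈ P, p ≤ t := by
    have h1 : ∑ p ∈ P, p ≤ P.card • (2 * r ^ 2) := sum_le_card_nsmul _ _ _ hPl
    rw [hPc, smul_eq_mul] at h1
    have h2 : r ^ 3 ≤ (8 * (L + 1)) ^ 3 := Nat.pow_le_pow_left (by omega) 3
    nlinarith
  have ht2 : 2 ≤ t := by
    have : 1 ≤ (L + 1) ^ 3 := Nat.one_le_pow _ _ (by omega)
    omega
  have htX : t ≤ Nat.card X := by rwa [Nat.card_eq_fintype_card]
  have h2 : IsMultiplyPretransitive G X 2 := isMultiplyPretransitive_of_le ht2 htX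
  have : ∀ p : P, NeZero (p : ℕ) := fun p => ⟨(hPp p p.2).ne_zero⟩
  let I := Σ p : P, ZMod p
  have hI : Fintype.card I = ∑ p ∈ P, p := by
    simp only [I, Fintype.card_sigma, ZMod.card]
    exact sum_coe_sort P fun p => p
  have h3 : IsMultiplyPretransitive G X (Fintype.card I) :=
    isMultiplyPretransitive_of_le (hI ▸ hs) htX
  obtain ⟨e⟩ : Nonempty (I ↪ X) :=
    Function.Embedding.nonempty_of_card_le (hI ▸ hs.trans ht)
  let τ : Equiv.Perm I := Equiv.sigmaCongrRight fun p : P => Equiv.addRight (1 : ZMod p)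
  let q : Fin (Fintype.card I) ≃ I := (Fintype.equivFin I).symm
  obtain ⟨g, hg⟩ := h3.exists_smul_eq (q.toEmbedding.trans e)
    ((q.trans τ).toEmbedding.trans e)
  have hg1 : ∀ i : I, g • e i = e (τ i) := fun i => by
    have := DFunLike.congr_fun hg (q.symm i)
    simpa using this
  have hgk : ∀ (p : P) (k : ℕ), g ^ k • e ⟨p, 0⟩ = e ⟨p, (k : ZMod p)⟩ := by
    intro p k
    induction k with
    | zero => simp
    | succ k ih =>
      rw [pow_succ', mul_smul, ih, hg1, Nat.cast_succ]
      rfl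
  set o := orderOf (toPermHom G X g) with ho
  have ho0 : 0 < o := orderOf_pos _
  have hgo : ∀ x : X, g ^ o • x = x := fun x => by
    have : (toPermHom G X g) ^ o = 1 := pow_orderOf_eq_one _
    rw [← map_pow] at this
    exact DFunLike.congr_fun this x
  have hpo : ∀ p ∈ P, p ∣ o := fun p hp => by
    have h := hgk ⟨p, hp⟩ o
    rw [hgo] at h
    have h' := eq_of_heq (Sigma.mk.inj (e.injective h)).2
    exact (ZMod.natCast_eq_zero_iff _ _).1 h'.symm
  have hper : ∀ x : X, period g x ∣ o := fun x => pow_smul_eq_iff_period_dvd.1 (hgo x)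
  have hpos : ∀ x : X, 0 < period g x := fun x => Nat.pos_of_dvd_of_pos (hper x) ho0
  have hle : ∀ x : X, period g x ≤ Fintype.card X := fun x => Function.minimalPeriod_le_card
  have hm : ∀ p ∈ P, Fintype.card X ≤ 8 * (univ.filter fun x : X => p ∣ period g x).card := by
    intro p hp
    obtain ⟨c, hc⟩ := hpo p hp
    have hp2 := (hPp p hp).two_le
    have hc0 : 0 < c := Nat.pos_of_ne_zero fun h => by rw [h] at hc; omega
    have hmv : ∃ x : X, g ^ c • x ≠ x := by
      by_contra hn
      push Not at hn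
      have h1 : (toPermHom G X g) ^ c = 1 := by
        rw [← map_pow]
        exact Equiv.ext hn
      have h4 : o ≤ c := Nat.le_of_dvd hc0 (orderOf_dvd_of_pow_eq_one h1)
      nlinarith
    refine (hB G X h2 hG (g ^ c) hmv).trans (Nat.mul_le_mul_left _ (card_le_card fun x hx => ?_))
    rw [mem_filter] at hx ⊢
    refine ⟨mem_univ _, ?_⟩
    by_contra hd
    refine hx.2 (pow_smul_eq_iff_period_dvd.2 ?_)
    have h5 := hper x
    rw [hc] at h5
    exact ((Nat.Prime.coprime_iff_not_dvd (hPp p hp)).2 hd).symm.dvd_of_dvd_mul_left h5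
  have hsum : ∑ p ∈ P, (univ.filter fun x : X => p ∣ period g x).card ≤ Fintype.card X * L := by
    simp only [card_filter]
    rw [sum_comm]
    calc ∑ x : X, ∑ p ∈ P, (if p ∣ period g x then 1 else 0)
        ≤ ∑ _x : X, L := sum_le_sum fun x _ => by
          rw [← card_filter]
          exact card_dvd_le P hPp _ _ (hpos x) (hle x)
      _ = Fintype.card X * L := by simp
  have h6 : ∑ _p ∈ P, Fintype.card X ≤
      ∑ p ∈ P, 8 * (univ.filter fun x : X => p ∣ period g x).card := sum_le_sum hm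
  rw [← mul_sum, sum_const, hPc, smul_eq_mul] at h6
  have h7 : 0 < Fintype.card X := by omega
  nlinarith

end Pool.Agent.MP_db5b97_nt.H6
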