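import Pool.Agent.MP_db5b97_nt.H31.SpecT
import Pool.Agent.MP_db5b97_nt.H10.NT1

/-! A generator of an extension in which the primes dividing `l` are inert. -/

namespace Pool.Agent.MP_db5b97_nt.H6

open H85 H31 NumberField IsDedekindDomain Polynomial

attribute [local instance] Ideal.Quotient.field

theorem pl_nonempty (k : Type) [Field k] [NumberField k] {l : ℕ} (hl : 2 ≤ l) :
    Nonempty (Pl k l) := by
  obtain ⟨m, hm, hle⟩ := Ideal.exists_le_maximal (Ideal.span {(l : ℤ)}) (by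
    rw [Ne, Ideal.span_singleton_eq_top, Int.isUnit_iff]
    omega)
  obtain ⟨Q, hQ, e⟩ := Ideal.exists_ideal_over_maximal_of_isIntegral (S := 𝓞 k) m (by
    rw [(RingHom.injective_iff_ker_eq_bot _).1 (algebraMap ℤ (𝓞 k)).injective_int]
    exact bot_le)
  have h3 : (l : 𝓞 k) ∈ Q := by
    have : (l : ℤ) ∈ Q.comap (algebraMap ℤ (𝓞 k)) := e ▸ hle (Ideal.mem_span_singleton_self _)
    simpa [Ideal.mem_comap] using this
  exact ⟨⟨⟨Q, hQ.isPrime, fun h0 => by
    rw [h0, Ideal.mem_bot, Nat.cast_eq_zero] at h3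
    omega⟩, h3⟩⟩

theorem rowINP : RowINP := by
  intro k E _ _ _ _ _ l hl hW
  have := Pl_finite (F := E) (l := l) (by omega)
  have lo : ∀ W : Sp E, W.asIdeal.LiesOver (und k W).asIdeal := fun W => ⟨rfl⟩
  have h1 : ∀ W : Pl E l, ∃ β : 𝓞 E ⧸ W.1.asIdeal,
      (minpoly (𝓞 k ⧸ (und k W.1).asIdeal) β).natDegree = Module.finrank k E := fun W => by
    obtain ⟨β, hβ⟩ := Field.exists_primitive_element (𝓞 k ⧸ (und k W.1).asIdeal)
      (𝓞 E ⧸ W.1.asIdeal)
    exact ⟨β, by rw [(Field.primitive_element_iff_minpoly_natDegree_eq _ _).1 hβ,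
      ← Ideal.inertiaDeg_eq_of_isMaximal, hW]⟩
  choose β hβ using h1
  obtain ⟨α, hα⟩ := Ideal.pi_quotient_surjective (I := fun v : Pl E l => v.1.asIdeal)
    (fun v v' h => v.1.isCoprime_of_ne v'.1 fun e => h (Subtype.ext e)) β
  have hi : IsIntegral (𝓞 k) α := Algebra.IsIntegral.isIntegral α
  have hm := minpoly.monic hi
  have hle : (minpoly (𝓞 k) α).natDegree ≤ Module.finrank k E := by
    rw [← hm.natDegree_map (algebraMap (𝓞 k) k),
      ← minpoly.isIntegrallyClosed_eq_field_fractions k E hi]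
    exact minpoly.natDegree_le _
  have key : ∀ W : Pl E l, (minpoly (𝓞 k) α).map (Ideal.Quotient.mk (und k W.1).asIdeal) =
      minpoly (𝓞 k ⧸ (und k W.1).asIdeal) (β W) := fun W => by
    have h0 : aeval (β W) ((minpoly (𝓞 k) α).map (Ideal.Quotient.mk (und k W.1).asIdeal)) = 0 := by
      have e : aeval (Ideal.Quotient.mk W.1.asIdeal α)
          ((minpoly (𝓞 k) α).map (Ideal.Quotient.mk (und k W.1).asIdeal)) =
          Ideal.Quotient.mk W.1.asIdeal (aeval α (minpoly (𝓞 k) α)) := by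
        rw [aeval_def, aeval_def, eval₂_map, hom_eval₂]
        rfl
      rw [← hα W, e, minpoly.aeval, map_zero]
    refine eq_of_monic_of_dvd_of_natDegree_le (minpoly.monic (IsIntegral.of_finite _ _))
      (hm.map _) (minpoly.dvd _ _ h0) ?_
    rw [hm.natDegree_map, hβ]
    exact hle
  refine ⟨α, minpoly (𝓞 k) α, hm, minpoly.aeval _ _, ?_, fun w => ?_⟩
  · obtain ⟨W⟩ := pl_nonempty E hl
    rw [← hβ W, ← key W, hm.natDegree_map]
  · obtain ⟨W, rfl⟩ := (H10.rowNT1.und_surj k E l).1 w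
    show Irreducible ((minpoly (𝓞 k) α).map (Ideal.Quotient.mk (und k W.1).asIdeal))
    rw [key W]
    exact minpoly.irreducible (IsIntegral.of_finite _ _)

end Pool.Agent.MP_db5b97_nt.H6
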